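import Mathlib

/-! Helper lemmas for the existence parts (limits of monotone iterations). -/

set_option autoImplicit false

namespace Pool.Agent.TH443.SD

open Set Filter MeasureTheory
open scoped Topology

noncomputable section

/-- solution of `x' = f - c x`, `x 0 = g0` -/
def sol (c g0 : ℝ) (f : ℝ → ℝ) (t : ℝ) : ℝ :=
  Real.exp (-(c * t)) * (g0 + ∫ s in (0:ℝ)..t, Real.exp (c * s) * f s)

lemma sol_zero (c g0 : ℝ) (f : ℝ → ℝ) : sol c g0 f 0 = g0 := by simp [sol]

lemma sol_hasDerivAt {c g0 : ℝ} {f : ℝ → ℝ} (hf : Continuous f) (t : ℝ) :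
    HasDerivAt (sol c g0 f) (f t - c * sol c g0 f t) t := by
  have h1 : HasDerivAt (fun t => ∫ s in (0:ℝ)..t, Real.exp (c * s) * f s)
      (Real.exp (c * t) * f t) t := by
    have hc : Continuous (fun s => Real.exp (c * s) * f s) := by fun_prop
    exact intervalIntegral.integral_hasDerivAt_right (hc.intervalIntegrable _ _)
      (hc.stronglyMeasurableAtFilter _ _) hc.continuousAt
  have h2 : HasDerivAt (fun t => Real.exp (-(c * t))) (Real.exp (-(c * t)) * (-(c * 1))) t := by
    have := ((hasDerivAt_id t).const_mul c).neg.exp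
    simpa using this
  have h3 := h2.mul (h1.const_add g0)
  have e1 : Real.exp (-(c * t)) * Real.exp (c * t) = 1 := by
    rw [← Real.exp_add]; simp
  refine (h3.congr_deriv ?_).congr_of_eventuallyEq (Eventually.of_forall fun s => ?_)
  · simp only [sol]
    linear_combination (f t) * e1
  · simp [sol]

lemma sol_continuous {c g0 : ℝ} {f : ℝ → ℝ} (hf : Continuous f) : Continuous (sol c g0 f) :=
  continuous_iff_continuousAt.2 fun t => (sol_hasDerivAt hf t).continuousAt

/-- comparison for one equation -/
lemma comp1 {c T : ℝ} {w E w' E' : ℝ → ℝ} (hw : ContinuousOn w (Icc 0 T))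
    (hE : ContinuousOn E (Icc 0 T))
    (hw' : ∀ t ∈ Ico 0 T, HasDerivWithinAt w (w' t) (Ici t) t)
    (hE' : ∀ t ∈ Ico 0 T, HasDerivWithinAt E (E' t) (Ici t) t)
    (h0 : w 0 ≤ E 0) (h : ∀ t ∈ Ico 0 T, w' t + c * w t ≤ E' t + c * E t) :
    ∀ t ∈ Icc 0 T, w t ≤ E t := by
  have he : ∀ t, HasDerivAt (fun t => Real.exp (c * t)) (Real.exp (c * t) * c) t := by
    intro t
    have := ((hasDerivAt_id t).const_mul c).exp
    simpa using this
  have hec : ContinuousOn (fun t => Real.exp (c * t)) (Icc 0 T) := by fun_prop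
  have key := image_le_of_deriv_right_le_deriv_boundary (f := fun t => Real.exp (c * t) * w t)
    (f' := fun t => Real.exp (c * t) * c * w t + Real.exp (c * t) * w' t)
    (a := 0) (b := T) (hec.mul hw) (fun t ht => (he t).hasDerivWithinAt.mul (hw' t ht))
    (B := fun t => Real.exp (c * t) * E t)
    (B' := fun t => Real.exp (c * t) * c * E t + Real.exp (c * t) * E' t)
    (by simpa using h0) (hec.mul hE) (fun t ht => (he t).hasDerivWithinAt.mul (hE' t ht))
    (fun t ht => by
      have h1 := h t ht
      have h2 := Real.exp_pos (c * t)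
      nlinarith)
  intro t ht
  have := key ht
  exact le_of_mul_le_mul_left this (Real.exp_pos _)

/-- limit of solutions: the limit function is continuous -/
lemma lim_sol {c g0 : ℝ} {F Φ : ℕ → ℝ → ℝ} {f φ : ℝ → ℝ} (hΦ : ∀ n, Continuous (Φ n))
    (hF : ∀ n t, 0 ≤ t → F (n + 1) t = sol c g0 (Φ n) t)
    (hlimF : ∀ t, 0 ≤ t → Tendsto (fun n => F n t) atTop (𝓝 (f t)))
    (hlimΦ : ∀ t, 0 ≤ t → Tendsto (fun n => Φ n t) atTop (𝓝 (φ t)))
    (hb : ∀ T, 0 ≤ T → ∃ M, ∀ n, ∀ t ∈ Icc 0 T, |Φ n t| ≤ M) :
    (∀ t, 0 ≤ t → f t = sol c g0 (fun s => φ (max s 0)) t) ∧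
    ContinuousOn f (Ici 0) ∧
    (ContinuousOn φ (Ici 0) → ∀ t, 0 ≤ t →
      HasDerivWithinAt f (φ t - c * f t) (Ici 0) t) := by
  have hmeas : Measurable (fun s => φ (max s 0)) := by
    refine measurable_of_tendsto_metrizable (f := fun n s => Φ n (max s 0)) ?_ ?_
    · intro n
      exact ((hΦ n).comp (continuous_id.max continuous_const)).measurable
    · rw [tendsto_pi_nhds]
      intro s
      exact hlimΦ _ (le_max_right _ _)
  have hbφ : ∀ T, 0 ≤ T → ∃ M, ∀ s ∈ Iic T, |φ (max s 0)| ≤ M := by
    intro T hT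
    obtain ⟨M, hM⟩ := hb T hT
    refine ⟨M, fun s hs => ?_⟩
    have : max s 0 ∈ Icc (0:ℝ) T := ⟨le_max_right _ _, max_le hs hT⟩
    exact le_of_tendsto ((hlimΦ _ this.1).abs) (Eventually.of_forall fun n => hM n _ this)
  have hII : ∀ a b, IntervalIntegrable (fun s => Real.exp (c * s) * φ (max s 0)) volume a b := by
    intro a b
    have h1 : IntervalIntegrable (fun s => φ (max s 0)) volume a b := by
      obtain ⟨M, hM⟩ := hbφ (max (max a b) 0) (le_max_right _ _)
      rw [intervalIntegrable_iff]
      refine Measure.integrableOn_of_bounded (M := M) ?_ hmeas.aestronglyMeasurable ?_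
      · simp
      · refine (ae_restrict_mem measurableSet_uIoc).mono fun s hs => ?_
        rw [Real.norm_eq_abs]
        refine hM s ?_
        rw [uIoc, mem_Ioc] at hs
        exact hs.2.trans (le_max_left _ _)
    exact h1.continuousOn_mul (by fun_prop)
  have hcont : Continuous (fun t => sol c g0 (fun s => φ (max s 0)) t) := by
    unfold sol
    have := intervalIntegral.continuous_primitive hII 0
    fun_prop
  have heq : ∀ t, 0 ≤ t → f t = sol c g0 (fun s => φ (max s 0)) t := by
    intro t ht
    have h1 : Tendsto (fun n => F (n + 1) t) atTop (𝓝 (f t)) :=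
      (tendsto_add_atTop_iff_nat 1).2 (hlimF t ht)
    have h2 : Tendsto (fun n => sol c g0 (Φ n) t) atTop
        (𝓝 (sol c g0 (fun s => φ (max s 0)) t)) := by
      unfold sol
      refine Tendsto.const_mul _ (Tendsto.const_add _ ?_)
      obtain ⟨M, hM⟩ := hb t ht
      refine intervalIntegral.tendsto_integral_filter_of_dominated_convergence
        (fun s => Real.exp (c * s) * M) ?_ ?_ ?_ ?_
      · refine Eventually.of_forall fun n => ?_
        have : Continuous (fun s => Real.exp (c * s) * Φ n s) := by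
          have := hΦ n
          fun_prop
        exact this.aestronglyMeasurable
      · refine Eventually.of_forall fun n => Eventually.of_forall fun s hs => ?_
        rw [uIoc_of_le ht] at hs
        rw [norm_mul, Real.norm_eq_abs, Real.norm_eq_abs, abs_of_pos (Real.exp_pos _)]
        exact mul_le_mul_of_nonneg_left (hM n s ⟨hs.1.le, hs.2⟩) (Real.exp_pos _).le
      · apply Continuous.intervalIntegrable
        fun_prop
      · refine Eventually.of_forall fun s hs => ?_
        rw [uIoc_of_le ht] at hs
        refine Tendsto.const_mul _ ?_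
        simp only [max_eq_left hs.1.le]
        exact hlimΦ s hs.1.le
    refine tendsto_nhds_unique h1 ?_
    refine h2.congr fun n => (hF n t ht).symm
  refine ⟨heq, ?_, ?_⟩
  · exact hcont.continuousOn.congr fun t ht => heq t ht
  · intro hφ t ht
    have hφc : Continuous (fun s => φ (max s 0)) :=
      hφ.comp_continuous (continuous_id.max continuous_const) fun s => mem_Ici.2 (le_max_right _ _)
    have h1 := (sol_hasDerivAt (c := c) (g0 := g0) hφc t).hasDerivWithinAt (s := Ici 0)
    rw [← heq t ht] at h1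
    simp only [max_eq_left ht] at h1
    exact h1.congr (fun s hs => heq s hs) (heq t ht)

end

end Pool.Agent.TH443.SD
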